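import Pool.Agent.Helper71.GD.Main

/-! Sets whose dyadic scales have positive density in long windows, for example sequences
`x n → 0` with `x (n + 1) ≤ x n / 2` and `x n ≥ c ^ n` for infinitely many `n`, are not
measure-universal. -/

open MeasureTheory Set Filter

namespace Pool.Agent.Results.MP_4d9215_an.DenseScales

/-- There is a function `h : ℕ → ℕ` with `h N → ∞` such that the following holds for all `d` and all
`E ⊆ ℝ^d`. Suppose that for infinitely many `N` there are a point `p` and nonzero vectors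
`v 0, …, v N` with `p + v i ∈ E`, `‖v (i + 1)‖ ≤ ‖v i‖ / 2` and `‖v N‖ ≥ 2 ^ (-h N * N) ‖v 0‖`. Then
for every `η > 0` there is a compact set `K ⊆ [0, 1]^d` with `|[0, 1]^d ∖ K| ≤ η` which contains no
set `t + T(E)`, `T` an invertible linear map. -/
theorem result : ∃ h : ℕ → ℕ, Tendsto h atTop atTop ∧ ∀ (d : ℕ) (E : Set (Fin d → ℝ)),
    (∃ᶠ N in atTop, ∃ (p : Fin d → ℝ) (v : ℕ → Fin d → ℝ), (∀ i ≤ N, v i ≠ 0 ∧ p + v i ∈ E) ∧
      (∀ i < N, ‖v (i + 1)‖ ≤ ‖v i‖ / 2) ∧ ‖v 0‖ ≤ 2 ^ (h N * N) * ‖v N‖) →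
    ∀ η : ℝ, 0 < η → ∃ K : Set (Fin d → ℝ), K ⊆ Icc 0 1 ∧ IsCompact K ∧
      volume (Icc (0 : Fin d → ℝ) 1 \ K) ≤ ENNReal.ofReal η ∧
      ∀ (t : Fin d → ℝ) (T : (Fin d → ℝ) ≃ₗ[ℝ] (Fin d → ℝ)), ¬ ∀ v ∈ E, t + T v ∈ K := by
  obtain ⟨h, hh, hmain⟩ := Pool.Agent.Helper71.GD.main
  refine ⟨h, hh, fun d E hE η hη => ?_⟩
  obtain ⟨K, hK, hKc, hKv, hKE⟩ := hmain d E hE η hη
  refine ⟨K, hK, hKc, hKv, fun t T hcon => ?_⟩
  obtain ⟨v, hv, hvK⟩ := hKE t T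
  exact hvK (hcon v hv)

end Pool.Agent.Results.MP_4d9215_an.DenseScales
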