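import Mathlib
import Pool.Agent.Helper69.Sim.Defs
import Pool.Agent.Helper69.Sim.Lac

/-! Sets which contain arbitrarily large finite threefold sumsets are not measure-universal. -/

open Finset MeasureTheory
open Pool.Agent.Helper69.Sim

namespace Pool.Agent.Results.MP_4d9215_an.FiniteSumsets

/-- If `E ⊆ ℝ^d` contains, for every `n`, a sumset `F₁ + F₂ + F₃` of three `n`-element sets, then
`E` is not measure-universal. -/
theorem result (d : ℕ) (E : Set (Fin d → ℝ))
    (h : ∀ n : ℕ, ∃ F₁ F₂ F₃ : Finset (Fin d → ℝ), #F₁ = n ∧ #F₂ = n ∧ #F₃ = n ∧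
      ∀ a ∈ F₁, ∀ b ∈ F₂, ∀ c ∈ F₃, a + b + c ∈ E) : ¬ MeasureUniversal E :=
  not_universal_of_criterion (by norm_num) E (criterion_of_sumsets E h)

end Pool.Agent.Results.MP_4d9215_an.FiniteSumsets
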