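import Mathlib
import Pool.Agent.Helper69.Sim.Defs
import Pool.Agent.Helper69.Sim.Ratio

/-! Twofold sums of lacunary sets with few ratios are not measure-universal. -/

open Finset MeasureTheory
open scoped Pointwise
open Pool.Agent.Helper69.Sim

namespace Pool.Agent.Results.MP_4d9215_an.TwofoldFewRatios

/-- If, for every `C`, there are a finite set `A` of positive reals with `2x ≤ y` for `x < y` in
`A` and `C |A/A| log |A| ≤ |A|²`, and vectors `x₀`, `v ≠ 0`, `w ≠ 0` with `x₀ + a v + b w ∈ E` for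
all `a, b ∈ A`, then `E` is not measure-universal. -/
theorem result (d : ℕ) (E : Set (Fin d → ℝ))
    (h : ∀ C : ℕ, ∃ (A : Finset ℝ) (v w x₀ : Fin d → ℝ), (∀ x ∈ A, 0 < x) ∧
      (∀ x ∈ A, ∀ y ∈ A, x < y → 2 * x ≤ y) ∧ v ≠ 0 ∧ w ≠ 0 ∧ 2 ≤ #A ∧
      (C : ℝ) * #(A / A) * Real.log #A ≤ (#A : ℝ) ^ 2 ∧
      ∀ a ∈ A, ∀ b ∈ A, x₀ + a • v + b • w ∈ E) : ¬ MeasureUniversal E :=
  not_universal_of_criterion (by norm_num) E (criterion_of_ratios E h)

end Pool.Agent.Results.MP_4d9215_an.TwofoldFewRatios
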